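import Pool.Agent.H15.G.R_seed8.Y205.FW.Defs
import Pool.Agent.H15.G.R_seed8.Y205.MD.Win

/-! Independence in the plane from nodes indexed by a finite type. -/

set_option autoImplicit false

namespace Pool.Agent.Y901.FW

open Finset Pool.Agent.TH176.Nag Pool.Agent.TH603.Sur Pool.Agent.TH745.MN Filter Topology
open Pool.Agent.Y205.FW

theorem Nd_eq {M : ℕ} (hM : 0 < M) {B h : ℝ} (hB : B + 4 * M = 4 * M * h) (X Y : ℝ) :
    Nd M B X Y = Nd 1 (4 * h - 4) X Y := by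
  have hM0 : (0 : ℝ) < M := by exact_mod_cast hM
  have e : ∀ Z y : ℝ, Z / (4 * M) * (B - 4 * M * y) =
      Z / (4 * ((1 : ℕ) : ℝ)) * ((4 * h - 4) - 4 * ((1 : ℕ) : ℝ) * y) := by
    intro Z y
    have hB' : B = 4 * M * h - 4 * M := by linarith
    rw [hB']
    push_cast
    field_simp
  unfold Nd
  simp only [e]

theorem nodes : StNodes := by
  intro J _ K d hK hJ hKd κ _ w σ hσ hsum
  classical
  have hK0 : (2 : ℝ) ≤ K := by exact_mod_cast hK
  obtain ⟨δ, hδ0, hδ⟩ : ∃ δ : ℝ, 0 < δ ∧ ∑ j, (σ j + δ) < 4 * (K : ℝ) ^ 2 := by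
    have h1 : (0 : ℝ) < Fintype.card J + 1 := by positivity
    have h2 : (0 : ℝ) < 4 * (K : ℝ) ^ 2 - ∑ j, σ j := by linarith
    refine ⟨(4 * (K : ℝ) ^ 2 - ∑ j, σ j) / (Fintype.card J + 1), div_pos h2 h1, ?_⟩
    rw [sum_add_distrib, sum_const, card_univ, nsmul_eq_mul]
    have h3 : (Fintype.card J : ℝ) * ((4 * (K : ℝ) ^ 2 - ∑ j, σ j) / (Fintype.card J + 1)) <
        4 * (K : ℝ) ^ 2 - ∑ j, σ j := by
      rw [mul_div_assoc', div_lt_iff₀ h1]
      nlinarith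
    linarith
  have hKK : 4 ≤ K ^ 2 := by nlinarith
  obtain ⟨r, hr⟩ : ∃ r, r + 1 = K ^ 2 := ⟨K ^ 2 - 1, by omega⟩
  have hJr : Fintype.card J ≤ r := by omega
  obtain ⟨e, he⟩ : ∃ e : J → Fin r, Function.Injective e :=
    ⟨fun j => Fin.castLE hJr (Fintype.equivFin J j), fun a b h =>
      (Fintype.equivFin J).injective (Fin.castLE_injective hJr h)⟩
  obtain ⟨τ, hτ⟩ : ∃ τ : Fin r → ℝ, ∀ i, τ i = ∑ j, if e j = i then σ j + δ else 0 :=
    ⟨_, fun _ => rfl⟩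
  have hτe : ∀ j, τ (e j) = σ j + δ := by
    intro j
    rw [hτ, Finset.sum_eq_single j]
    · rw [if_pos rfl]
    · intro j' _ hj'
      rw [if_neg (fun h => hj' (he h))]
    · intro h
      exact absurd (mem_univ _) h
  have hτ0 : ∀ i, (∀ j, e j ≠ i) → τ i = 0 := by
    intro i hi
    rw [hτ]
    exact sum_eq_zero fun j _ => if_neg (hi j)
  have hτs : ∑ i, τ i = ∑ j, (σ j + δ) := by
    simp only [hτ]
    rw [sum_comm]
    refine sum_congr rfl fun j _ => ?_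
    rw [Finset.sum_ite_eq]
    simp
  obtain ⟨D, hD⟩ : ∃ D, D + K ^ 2 + 2 = K * (d + 3) := ⟨K * (d + 3) - (K ^ 2 + 2), by omega⟩
  refine Pool.Agent.TH48.MN.Sur_plane_of_WM (K := K) (D := D) (by omega) (by omega) ?_
  have hcomp : (2 * (D : ℝ) + 1 - 2 * r) + 4 * ((K ^ 2 : ℕ) : ℝ) =
      4 * ((K ^ 2 : ℕ) : ℝ) * (((d : ℝ) + 3 - 1 / (2 * K)) / (2 * K)) := by
    have g1 : ((r + 1 : ℕ) : ℝ) = ((K ^ 2 : ℕ) : ℝ) := by rw [hr]
    have g2 : ((D + K ^ 2 + 2 : ℕ) : ℝ) = ((K * (d + 3) : ℕ) : ℝ) := by rw [hD]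
    push_cast at g1 g2 ⊢
    have hK1 : (K : ℝ) ≠ 0 := by linarith
    have g3 : 4 * (K : ℝ) ^ 2 * (((d : ℝ) + 3 - 1 / (2 * K)) / (2 * K)) =
        2 * (K * ((d : ℝ) + 3)) - 1 := by
      field_simp
      ring
    rw [g3, ← g2]
    linarith
  have key := Pool.Agent.Y205.MD.Sur_shapesL (r := r) (M := K ^ 2) (D := D) hr (by omega)
    (κ := fun i => {x : Σ j, κ j // e x.1 = i}) (w := fun x => w x.2) (σ := τ)
    (by push_cast; rw [hτs]; exact hδ) (by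
      intro i
      by_cases hi : ∃ j, e j = i
      · obtain ⟨j, rfl⟩ := hi
        rw [hτe]
        filter_upwards [hσ j (σ j + δ) (by linarith)] with ε hε
        obtain ⟨lx, ux, ly, uy, h1, h2, h3, h4, h5, h6⟩ := hε
        refine ⟨lx, ux, ly, uy, h1, h2, h3, h4, h5, fun X Y a1 a2 a3 a4 => ?_⟩
        rw [Nd_eq (by positivity) hcomp]
        refine Sur_emb (fun x : κ j => (⟨⟨j, x⟩, rfl⟩ : {x : Σ j, κ j // e x.1 = e j})) ?_
          (fun _ => rfl) ?_ (h6 X Y a1 a2 a3 a4)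
        · intro x y hxy
          simpa using hxy
        · rintro ⟨⟨j', x⟩, hx⟩ _
          have hj : j' = j := he hx
          subst hj
          exact ⟨x, rfl⟩
      · push Not at hi
        have : IsEmpty {x : Σ j, κ j // e x.1 = i} := ⟨fun x => hi _ x.2⟩
        rw [hτ0 i hi]
        exact site_ev0)
  exact Sur_emb _ (Pool.Agent.Y205.MD.fib_inj fun x : (Σ j, κ j) => e x.1) (fun _ => rfl)
    (fun x _ => ⟨⟨e x.1, x, rfl⟩, rfl⟩) key

end Pool.Agent.Y901.FW
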